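import Pool.Agent.H662.RC.Cub

set_option autoImplicit false

/-!
# Almost primes `m ^ 3 + k` in almost all residue classes, for all large moduli
-/

namespace Pool.Agent.Results.MP_4d57ea_nt.AlmostPrimesInClasses

open Finset Filter

open Classical in
/-- The number of the integers `m` in `[1, X]` with `m ≡ t mod q` such that `m ^ 3 + k` has at most `r`
prime factors (counted with multiplicity), all of them at least `w`. -/
noncomputable def almostPrimes (k : ℤ) (r : ℕ) (w : ℝ) (X q t : ℕ) : ℕ :=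
  ((Finset.Icc 1 X).filter (fun m : ℕ => m ≡ t [MOD q] ∧
    ((m : ℤ) ^ 3 + k).natAbs.primeFactorsList.length ≤ r ∧
      ∀ p : ℕ, p.Prime → p ∣ ((m : ℤ) ^ 3 + k).natAbs → w ≤ p)).card

open Classical in
/-- The number of the residue classes `t mod q` such that `t ^ 3 + k` is prime to `q`. -/
noncomputable def admissible (k : ℤ) (q : ℕ) : ℕ :=
  ((Finset.range q).filter (fun t : ℕ => IsCoprime ((t : ℤ) ^ 3 + k) (q : ℤ))).card

open Classical in
/-- **Almost prime values of `m ^ 3 + k` in almost all residue classes.**  Let `k` be no cube and let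
`r = 7`, `θ < 1`, or `r = 6`, `θ < 0.934`, or `r = 5`, `θ < 0.716`, or `r = 4`, `θ < 0.386`.  There are
`δ, κ > 0` such that for all large `X` and for every modulus `q ≤ X ^ θ`, all of the admissible residue
classes modulo `q` with at most `r(q) X ^ (-κ)` exceptions contain at least `δ X / (r(q) log X)` integers
`m ≤ X` such that `m ^ 3 + k` has at most `r` prime factors, all of them at least `X ^ (1/8)`. -/
theorem result (k : ℤ) (hk : ∀ a : ℤ, k ≠ a ^ 3) (r : ℕ) (θ : ℝ) (hθ : 0 < θ)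
    (hpar : (r = 7 ∧ θ < 1) ∨ (r = 6 ∧ θ < 467 / 500) ∨ (r = 5 ∧ θ < 179 / 250) ∨
      (r = 4 ∧ θ < 193 / 500)) :
    ∃ δ κ : ℝ, 0 < δ ∧ 0 < κ ∧ ∀ᶠ X : ℕ in atTop, ∀ q : ℕ, 1 ≤ q → (q : ℝ) ≤ (X : ℝ) ^ θ →
      (((Finset.range q).filter (fun t : ℕ => IsCoprime ((t : ℤ) ^ 3 + k) (q : ℤ) ∧
        (almostPrimes k r ((X : ℝ) ^ (1 / 8 : ℝ)) X q t : ℝ) <
          δ * X / (admissible k q * Real.log X))).card : ℝ) ≤
      admissible k q * (X : ℝ) ^ (-κ) := by
  obtain ⟨δ, κ, hδ, hκ, H⟩ := Pool.Agent.H662.RC.cub_alm k hk r θ hθ hpar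
  refine ⟨δ, κ, hδ, hκ, ?_⟩
  filter_upwards [H] with X hX q hq hqX
  have h := hX q hq hqX
  have e2 : ∀ t : ℕ, Pool.Agent.H662.RC.almP (Pool.Agent.H662.RC.CG k) r ((X : ℝ) ^ (1 / 8 : ℝ)) X q t =
      almostPrimes k r ((X : ℝ) ^ (1 / 8 : ℝ)) X q t := by
    intro t
    unfold Pool.Agent.H662.RC.almP almostPrimes
    simp only [Pool.Agent.H662.RC.CG_eval]
  simp only [Pool.Agent.H662.RC.CG_eval, e2] at h
  exact h

end Pool.Agent.Results.MP_4d57ea_nt.AlmostPrimesInClasses
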