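import Pool.Agent.H662.RC.Cub

set_option autoImplicit false

/-!
# Upper bounds for the number of primes `m ^ 3 + k` in almost all residue classes

For an individual residue class modulo `q` the sieve gives at most `2 + δ` times
`C X / (r(q) log (X / q))` integers `m ≤ X` in the class with `m ^ 3 + k` prime, where `r(q)` is the number
of the classes at which `m ^ 3 + k` is prime to `q` and `C / 3` is the constant of Hardy and Littlewood.
Here `2 / log (X / q)` is replaced by `4 / log (X ^ 2 / q)` for all but few of the classes, for every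
modulus `q ≤ X ^ θ`, `θ < 1`.
-/

namespace Pool.Agent.Results.MP_4d57ea_nt.ResidueClasses

open Finset Filter Topology

/-- The number of the roots of `m ^ 3 + k` modulo `p`. -/
def roots (k : ℤ) (p : ℕ) : ℕ :=
  ((range p).filter (fun m : ℕ => (p : ℤ) ∣ (m : ℤ) ^ 3 + k)).card

/-- The number of the integers `1 ≤ m ≤ X` with `m ≡ r mod q` such that `|m ^ 3 + k|` is a prime. -/
def primeCount (k : ℤ) (X q r : ℕ) : ℕ :=
  ((Icc 1 X).filter (fun m : ℕ => m ≡ r [MOD q] ∧ ((m : ℤ) ^ 3 + k).natAbs.Prime)).card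

/-- The number of the residue classes `m mod q` such that `m ^ 3 + k` is prime to `q`. -/
def admissible (k : ℤ) (q : ℕ) : ℕ :=
  ((range q).filter (fun m : ℕ => Int.gcd ((m : ℤ) ^ 3 + k) q = 1)).card

open Classical in
/-- **Primes `m ^ 3 + k` in almost all residue classes.** Let `k` be no cube. The products over the primes
`p ≤ x` of `(1 - roots(p) / p) / (1 - 1 / p)` tend to a limit `C > 0` (for `k = 2` and `k = 3` these are the
constants `A` and `B` of Hardy and Littlewood), and for all `0 < θ < 1` and `δ > 0` there is `κ > 0` with the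
following property: for all large `X` and every modulus `1 ≤ q ≤ X ^ θ`, for all but at most
`r(q) X ^ (-κ)` of the residue classes modulo `q` the number of the `m ≤ X` in the class with `|m ^ 3 + k|`
prime is at most `(12 + δ) (C / 3) X / (r(q) log (X ^ 2 / q))`. -/
theorem result (k : ℤ) (hk : ∀ a : ℤ, k ≠ a ^ 3) :
    ∃ C : ℝ, 0 < C ∧
      Tendsto (fun x : ℕ => ∏ p ∈ (range (x + 1)).filter Nat.Prime,
        (1 - (roots k p : ℝ) / p) / (1 - 1 / (p : ℝ))) atTop (𝓝 C) ∧
      ∀ θ δ : ℝ, 0 < θ → θ < 1 → 0 < δ → ∃ κ : ℝ, 0 < κ ∧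
        ∀ᶠ X : ℕ in atTop, ∀ q : ℕ, 0 < q → (q : ℝ) ≤ (X : ℝ) ^ θ →
          (((range q).filter (fun r : ℕ =>
            (12 + δ) * (C / 3) * ((X : ℝ) / ((admissible k q : ℝ) * Real.log ((X : ℝ) ^ 2 / q))) <
              (primeCount k X q r : ℝ))).card : ℝ) ≤
            (admissible k q : ℝ) * (X : ℝ) ^ (-κ) := by
  obtain ⟨C, hC, hlim, hReg⟩ := Pool.Agent.H662.RC.Reg_cub k hk
  refine ⟨C, hC, ?_, ?_⟩
  · refine hlim.congr (fun x => ?_)
    apply prod_congr rfl
    intro p _
    have h1 : roots k p = Pool.Agent.Y882.PX.ro (Pool.Agent.H662.RC.CG k) 0 p := by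
      rw [Pool.Agent.Y882.PX.ro_eq]
      unfold roots
      congr 1
      apply filter_congr
      intro t _
      rw [Pool.Agent.H662.RC.CG_eval, add_zero]
    rw [h1]
  · intro θ δ h1 h2 h3
    obtain ⟨κ, hκ, hX⟩ := Pool.Agent.H662.RC.main2G (Pool.Agent.H662.RC.CG k) C hC hReg θ
      (2 / 3 * δ) h1 h2 (by positivity)
    refine ⟨κ, hκ, ?_⟩
    have e1 : ∀ q : ℕ, Pool.Agent.H662.RC.clsG (Pool.Agent.H662.RC.CG k) q = admissible k q := by
      intro q
      unfold Pool.Agent.H662.RC.clsG admissible
      congr 1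
      apply filter_congr
      intro t _
      rw [Pool.Agent.H662.RC.CG_eval]
      rfl
    have e2 : ∀ X q r : ℕ, Pool.Agent.H662.RC.PG (Pool.Agent.H662.RC.CG k) q X r =
        primeCount k X q r := by
      intro X q r
      unfold Pool.Agent.H662.RC.PG primeCount
      congr 1
      apply filter_congr
      intro t _
      rw [Pool.Agent.H662.RC.CG_eval]
    filter_upwards [hX] with X hX q hq hqX
    have h4 := hX q hq hqX
    simp only [e1, e2] at h4
    have e3 : (8 + 2 / 3 * δ) * (C / 2) = (12 + δ) * (C / 3) := by ring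
    rw [e3] at h4
    exact h4

end Pool.Agent.Results.MP_4d57ea_nt.ResidueClasses
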