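import Pool.Agent.helper24_UT.Ch18

set_option autoImplicit false

/-!
# Primes `|m³ + k|` with `m ≤ N ^ (1/9 + ε)` for almost all `k`, `|k| ≤ N`, with `m` in any class, or in a given set of integers

Let `ε > 0` and `A` be fixed and let `N` be large. For all but at most `N / (log N) ^ A` of the integers `k`, `|k| ≤ N`, the number of the
`m ≤ y` for which `|m³ + k|` is prime (weighted by the logarithm) is given by the Euler product up to the error `y / (log N) ^ A`, for
ALL `y` with `N ^ (1 / 3 + ε) ≤ y ^ 3 ≤ N`; the same holds, in mean square, for the `m` in all residue classes to ALL moduli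
`q ≤ y exp (- 2 √(log N))`, with lengths `w(q, s) ≤ y` chosen as unfavourably as possible. In particular there is an
`m ≤ N ^ (1 / 9 + ε)` for which `|m³ + k|` is prime. For arbitrary weights `u(m)` (for instance, for the `m` in an arbitrary set of integers) the sum over the
`m` with `|m³ + k|` prime is asymptotically the sum of `u(m)` over the `m` with `m³ + k` free of prime factors `≤ z`, divided by the density, for almost all `k`
and again for all `y` and, in mean square, in all classes to all moduli `q ≤ y / (log N) ^ B`.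

Proof. The cubes have nearly minimal additive energy of large order, so the correlations of the primes minus their sieve model along
`m³ + k`, with arbitrary weights on the `m ≤ y`, are bounded by the mean square of exponential sums over primes in intervals of
length `y³` (`Pool.Agent.helper24_UT.Ch.t_MKT`, the method of Mikawa, `y³ ≥ N ^ (1 / 3 + ε)`); the theorem of Barban, Davenport and
Halberstam for sequences which are equidistributed in classes to small moduli gives the large moduli.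
-/

namespace Pool.Agent.Results.MP_4d57ea_nt.SmallCubesInClasses

open Finset Polynomial

/-- `log |m ^ 3 + k|` if `|m ^ 3 + k|` is a prime, `0` otherwise -/
noncomputable def lp (k : ℤ) (m : ℕ) : ℝ :=
  if ((m : ℤ) ^ 3 + k).natAbs.Prime then Real.log (((m : ℤ) ^ 3 + k).natAbs : ℝ) else 0

open Classical in
/-- the sieve model: the inverse of `∏_{p ≤ z} (1 - 1 / p)` if `m ^ 3 + k` has no prime factor `p ≤ z`, `0` otherwise -/
noncomputable def model (z : ℕ) (k : ℤ) (m : ℕ) : ℝ :=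
  if ∀ p ∈ (Icc 1 z).filter Nat.Prime, ¬ (p : ℤ) ∣ (m : ℤ) ^ 3 + k then
    (∏ p ∈ (Icc 1 z).filter Nat.Prime, (1 - 1 / (p : ℝ)))⁻¹ else 0

/-- the number of the `t`, `0 ≤ t < p`, with `(q t + s)³ + k ≡ 0 (mod p)` -/
def roots (k : ℤ) (q s p : ℕ) : ℕ := ((range p).filter (fun t : ℕ => (p : ℤ) ∣ ((q : ℤ) * t + s) ^ 3 + k)).card

/-- the Euler product for the cubes of the numbers `≡ s (mod q)`, over the primes `p ≤ z` -/
noncomputable def product (z : ℕ) (k : ℤ) (q s : ℕ) : ℝ :=
  ∏ p ∈ (Icc 1 z).filter Nat.Prime, (1 - (roots k q s p : ℝ) / p) / (1 - 1 / (p : ℝ))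

/-- For all `y` with `N ^ (1 / 3 + ε) ≤ y ^ 3 ≤ N`: (1) the sum of `lp k m` over the `m ≤ y` is `y` times the Euler product up to
`y / (log N) ^ A`; (2) for all `Q ≤ y exp (- 2 √(log N))` and all `w q s ≤ y` the sum, over all `q ≤ Q` and all classes `s` modulo
`q`, of the squares of the error for the `m ≤ w q s`, `m ≡ s (mod q)`, is at most `y ^ 2 / (log N) ^ A`; (3) there is an `m`,
`1 ≤ m ≤ y`, for which `|m ^ 3 + k|` is a prime. -/
def Good (ε : ℝ) (A N z : ℕ) (k : ℤ) : Prop :=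
  ∀ y : ℕ, (N : ℝ) ^ (1 / 3 + ε) ≤ (y : ℝ) ^ 3 → y ^ 3 ≤ N →
    |∑ m ∈ Icc 1 y, lp k m - y * product z k 1 0| ≤ y / Real.log N ^ A ∧
    (∀ Q : ℕ, (Q : ℝ) * Real.exp (2 * Real.sqrt (Real.log N)) ≤ y → ∀ w : ℕ → ℕ → ℕ, (∀ q s, w q s ≤ y) →
      ∑ q ∈ Icc 1 Q, ∑ s ∈ range q, (∑ m ∈ (Icc 1 (w q s)).filter (fun m => m % q = s), lp k m -
        (w q s : ℝ) / q * product z k q s) ^ 2 ≤ (y : ℝ) ^ 2 / Real.log N ^ A) ∧
    (∃ m : ℕ, 1 ≤ m ∧ m ≤ y ∧ ((m : ℤ) ^ 3 + k).natAbs.Prime)

/-- For the weights `u(m)`: for all `y` with `N ^ (1 / 3 + ε) ≤ y ^ 3 ≤ N`, all `Q ≤ y / (log N) ^ B` and all `w q s ≤ y` the sum,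
over all `q ≤ Q` and all classes `s` modulo `q`, of the squares of the sums of `u(m) (lp k m - model z k m)` over the `m ≤ w q s`,
`m ≡ s (mod q)`, is at most `y ^ 2 / (log N) ^ A`. -/
def GoodW (ε : ℝ) (A B N z : ℕ) (u : ℕ → ℝ) (k : ℤ) : Prop :=
  ∀ y : ℕ, (N : ℝ) ^ (1 / 3 + ε) ≤ (y : ℝ) ^ 3 → y ^ 3 ≤ N →
    ∀ Q : ℕ, (Q : ℝ) * Real.log N ^ B ≤ y → ∀ w : ℕ → ℕ → ℕ, (∀ q s, w q s ≤ y) →
      ∑ q ∈ Icc 1 Q, ∑ s ∈ range q, (∑ m ∈ (Icc 1 (w q s)).filter (fun m => m % q = s),
        u m * (lp k m - model z k m)) ^ 2 ≤ (y : ℝ) ^ 2 / Real.log N ^ A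

/-- the polynomial `x³` -/
noncomputable def Fm : Fin 1 → ℤ[X] := fun _ => X ^ 3

lemma Fm_deg (i : Fin 1) : (Fm i).natDegree = 3 := by
  unfold Fm
  rw [natDegree_X_pow]

lemma Fm_eval (i : Fin 1) (m : ℤ) : (Fm i).eval m = m ^ 3 := by
  unfold Fm
  rw [eval_pow, eval_X]

lemma prW_eq (a : Fin 1 → ℤ) (m : ℕ) : Pool.Agent.helper24_UT.prW Fm a m = lp (a 0) m := by
  classical
  unfold Pool.Agent.helper24_UT.prW lp
  have e : (Fm 0).eval (m : ℤ) + a 0 = (m : ℤ) ^ 3 + a 0 := by
    rw [Fm_eval]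
  by_cases h : ((m : ℤ) ^ 3 + a 0).natAbs.Prime
  · rw [if_pos h, if_pos, Fin.prod_univ_one, e]
    intro i
    rw [Subsingleton.elim i 0, e]
    exact h
  · rw [if_neg h, if_neg]
    intro h2
    have h3 := h2 0
    rw [e] at h3
    exact h h3

lemma lz_eq (z : ℕ) (a : Fin 1 → ℤ) (m : ℕ) :
    ∏ i : Fin 1, Pool.Agent.helper24_UT.lz z ((Fm i).eval (m : ℤ) + a i) = model z (a 0) m := by
  classical
  have e : (Fm 0).eval (m : ℤ) + a 0 = (m : ℤ) ^ 3 + a 0 := by
    rw [Fm_eval]
  rw [Fin.prod_univ_one, e]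
  rfl

lemma product_eq (z : ℕ) (a : Fin 1 → ℤ) (q s : ℕ) : Pool.Agent.helper24_UT.sg z
    (fun i : Fin 1 => (Fm i).comp (C (q : ℤ) * X + C (s : ℤ)) + C (a i)) = product z (a 0) q s := by
  classical
  unfold Pool.Agent.helper24_UT.sg product
  apply prod_congr rfl
  intro p _
  rw [pow_one]
  congr 3
  unfold Pool.Agent.helper24_UT.om roots
  congr 2
  ext t
  simp only [mem_filter]
  apply and_congr_right
  intro _
  have e : ∀ i : Fin 1, ((Fm i).comp (C (q : ℤ) * X + C (s : ℤ)) + C (a i)).eval (t : ℤ) = ((q : ℤ) * t + s) ^ 3 + a 0 := by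
    intro i
    rw [Subsingleton.elim i 0, eval_add, eval_comp, Fm_eval, eval_C, eval_add, eval_mul, eval_C, eval_X, eval_C]
  constructor
  · rintro ⟨i, hi⟩
    rw [e] at hi
    exact hi
  · intro h
    refine ⟨0, ?_⟩
    rw [e]
    exact h

/-- no fixed prime divisor -/
lemma no_fixed (k : ℤ) (p : ℕ) (hp : p.Prime) : ∃ m : ℤ, ¬ (p : ℤ) ∣ m ^ 3 + k := by
  have hpp : Prime (p : ℤ) := Nat.prime_iff_prime_int.1 hp
  by_contra hcon
  push Not at hcon
  have k0 := hcon 0
  have k1 := hcon 1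
  have k3 : (p : ℤ) ∣ 1 := by
    have := dvd_sub k1 k0
    have e : (1 ^ 3 + k - (0 ^ 3 + k) : ℤ) = 1 := by ring
    rwa [e] at this
  exact hpp.not_dvd_one k3

lemma exp_large : ∃ N₁ : ℕ, ∀ N : ℕ, N₁ ≤ N → ∀ (ε : ℝ), 0 < ε → ∀ y : ℕ, (N : ℝ) ^ (1 / 3 + ε) ≤ (y : ℝ) ^ 3 →
    Real.exp (2 * Real.sqrt (Real.log N)) ≤ y := by
  have hlog : Filter.Tendsto (fun N : ℕ => Real.log (N : ℝ)) Filter.atTop Filter.atTop :=
    Real.tendsto_log_atTop.comp tendsto_natCast_atTop_atTop
  obtain ⟨N₁, h1⟩ := Filter.eventually_atTop.1 (hlog.eventually_ge_atTop 324)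
  refine ⟨max N₁ 1, fun N hN ε hε y hy => ?_⟩
  have hL : 324 ≤ Real.log N := h1 N ((le_max_left _ _).trans hN)
  have hN0 : (0 : ℝ) < N := by exact_mod_cast (le_max_right _ _).trans hN
  have hN1 : (1 : ℝ) ≤ N := by exact_mod_cast (le_max_right _ _).trans hN
  have h2 : (N : ℝ) ^ (1 / 3 : ℝ) ≤ (y : ℝ) ^ 3 :=
    (Real.rpow_le_rpow_of_exponent_le hN1 (by linarith)).trans hy
  have h3 : Real.exp (2 * Real.sqrt (Real.log N)) ^ 3 ≤ (y : ℝ) ^ 3 := by
    refine le_trans ?_ h2
    rw [← Real.exp_nat_mul, Real.rpow_def_of_pos hN0]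
    apply Real.exp_le_exp.2
    have h4 : Real.sqrt (Real.log N) * 18 ≤ Real.log N := by
      have h5 : (18 : ℝ) ≤ Real.sqrt (Real.log N) := by
        apply Real.le_sqrt_of_sq_le
        linarith
      have h6 := Real.mul_self_sqrt (by linarith : (0 : ℝ) ≤ Real.log N)
      nlinarith
    push_cast
    linarith
  exact (pow_le_pow_iff_left₀ (Real.exp_pos _).le (Nat.cast_nonneg _) (by norm_num)).1 h3

open Classical in
/-- **Primes `|m³ + k|` with small `m` for almost all `k`**, with the expected number of the `m ≤ y`, the `m` in all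
classes to all moduli, or with arbitrary weights. -/
theorem result (ε : ℝ) (hε : 0 < ε) (A T : ℕ) : ∃ E₀ B : ℕ, ∀ E₁ : ℕ, ∃ N₀ : ℕ, ∀ N : ℕ, N₀ ≤ N → ∀ z : ℕ,
    Real.log N ^ E₀ ≤ z → (z : ℝ) ≤ Real.log N ^ E₁ →
    (((Icc (-(N : ℤ)) N).filter (fun k => ¬ Good ε A N z k)).card : ℝ) ≤ N / Real.log N ^ A ∧
    ∀ u : ℕ → ℝ, (∀ m, m ≤ N → |u m| ≤ Real.log N ^ T) →
      (((Icc (-(N : ℤ)) N).filter (fun k => ¬ GoodW ε A B N z u k)).card : ℝ) ≤ N / Real.log N ^ A := by
  obtain ⟨e, he⟩ := exists_nat_gt (1 / ε)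
  have he0 : (0 : ℝ) < e := lt_trans (by positivity) he
  have he1 : 1 ≤ e := by exact_mod_cast he0
  have hle : 1 / (e : ℝ) ≤ ε := by
    rw [div_le_iff₀ he0]
    rw [div_lt_iff₀ hε] at he
    linarith
  obtain ⟨E₀, h⟩ := Pool.Agent.helper24_UT.Ch.t_R37 1 3 Fm (by norm_num) Fm_deg e (2 * A + 4) he1
  obtain ⟨E₀', B, h'⟩ := Pool.Agent.helper24_UT.Ch.t_R36 1 3 Fm (by norm_num) Fm_deg e A T he1
  refine ⟨max E₀ E₀', B, fun E₁ => ?_⟩
  obtain ⟨N₀, h0⟩ := h E₁
  obtain ⟨N₀', h0'⟩ := h' E₁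
  obtain ⟨N₁, h1⟩ := Pool.Agent.helper24_UT.Low.main 1 3 E₁
  obtain ⟨N₃, h3⟩ := exp_large
  have hlog : Filter.Tendsto (fun N : ℕ => Real.log (N : ℝ)) Filter.atTop Filter.atTop :=
    Real.tendsto_log_atTop.comp tendsto_natCast_atTop_atTop
  obtain ⟨N₂, hN₂⟩ := Filter.eventually_atTop.1 (hlog.eventually_ge_atTop 2)
  refine ⟨max (max (max N₀ N₀') N₁) (max N₂ (max N₃ 1)), fun N hN z hz1 hz2 => ?_⟩
  have hNN0 : N₀ ≤ N := (le_max_left _ _).trans ((le_max_left _ _).trans ((le_max_left _ _).trans hN))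
  have hNN0' : N₀' ≤ N := (le_max_right _ _).trans ((le_max_left _ _).trans ((le_max_left _ _).trans hN))
  have hNN1 : N₁ ≤ N := (le_max_right _ _).trans ((le_max_left _ _).trans hN)
  have hL2 : 2 ≤ Real.log N := hN₂ N ((le_max_left _ _).trans ((le_max_right _ _).trans hN))
  have hNN3 : N₃ ≤ N := (le_max_left _ _).trans ((le_max_right _ _).trans ((le_max_right _ _).trans hN))
  have hN1 : 1 ≤ N := (le_max_right _ _).trans ((le_max_right _ _).trans ((le_max_right _ _).trans hN))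
  have hN0 : (0 : ℝ) < N := by exact_mod_cast hN1
  have hL0 : 0 < Real.log N := by linarith
  have hz1a : Real.log N ^ E₀ ≤ z := (pow_le_pow_right₀ (by linarith) (le_max_left _ _)).trans hz1
  have hz1b : Real.log N ^ E₀' ≤ z := (pow_le_pow_right₀ (by linarith) (le_max_right _ _)).trans hz1
  have hrange : ∀ y : ℕ, (N : ℝ) ^ (1 / 3 + ε) ≤ (y : ℝ) ^ 3 → y ^ 3 ≤ N → Pool.Agent.helper24_UT.Yr (1 / 3) e N 3 y := by
    intro y hy1 hy2
    exact ⟨(Real.rpow_le_rpow_of_exponent_le (by exact_mod_cast hN1) (by linarith)).trans hy1, hy2⟩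
  constructor
  · have key := h0 N hNN0 z hz1a hz2
    rw [pow_one] at key
    refine le_trans ?_ (key.trans ?_)
    · refine Nat.cast_le.2 ?_
      refine card_le_card_of_injOn (fun k => (fun _ : Fin 1 => k)) ?_ (fun a _ b _ hab => congrFun hab 0)
      intro k hk
      have hn := mem_filter.1 (mem_coe.1 hk)
      rw [mem_coe, mem_filter, Fintype.mem_piFinset]
      refine ⟨fun _ => hn.1, ?_⟩
      by_contra hcon
      push Not at hcon
      apply hn.2
      intro y hy1 hy2
      have hyE := h3 N hNN3 ε hε y hy1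
      have hy0 : (0 : ℝ) < y := (Real.exp_pos _).trans_le hyE
      have hmain := hcon y (hrange y hy1 hy2)
      have hmain' : ∀ Q : ℕ, (Q : ℝ) * Real.exp (2 * Real.sqrt (Real.log N)) ≤ y → ∀ w : ℕ → ℕ → ℕ, (∀ q s, w q s ≤ y) →
          ∑ q ∈ Icc 1 Q, ∑ s ∈ range q, (∑ m ∈ (Icc 1 (w q s)).filter (fun m => m % q = s), lp k m -
            (w q s : ℝ) / q * product z k q s) ^ 2 ≤ (y : ℝ) ^ 2 / Real.log N ^ (2 * A + 4) := by
        intro Q hQ w hw
        have h4 := hmain Q hQ w hw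
        simp only [prW_eq, product_eq] at h4
        exact h4
      have hone : |∑ m ∈ Icc 1 y, lp k m - y * product z k 1 0| ≤ y / Real.log N ^ (A + 2) := by
        have h4 := hmain' 1 (by rw [Nat.cast_one, one_mul]; exact hyE) (fun _ _ => y) (fun _ _ => le_rfl)
        rw [Icc_self, sum_singleton, range_one, sum_singleton, Nat.cast_one, div_one] at h4
        have e1 : (Icc 1 y).filter (fun m => m % 1 = 0) = Icc 1 y := filter_true_of_mem fun m _ => Nat.mod_one m
        rw [e1] at h4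
        apply abs_le_of_sq_le_sq _ (by positivity)
        rw [div_pow, ← pow_mul]
        refine h4.trans (le_of_eq ?_)
        congr 2
        ring
      refine ⟨hone.trans ?_, fun Q hQ w hw => (hmain' Q hQ w hw).trans ?_, ?_⟩
      · apply div_le_div_of_nonneg_left (Nat.cast_nonneg _) (by positivity)
        exact pow_le_pow_right₀ (by linarith) (by omega)
      · apply div_le_div_of_nonneg_left (by positivity) (by positivity)
        exact pow_le_pow_right₀ (by linarith) (by omega)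
      · have hlow : 1 / Real.log N ≤ product z k 1 0 := by
          rw [← product_eq z (fun _ => k)]
          apply h1 N hNN1 z hz2
          · intro i
            have e2 : (Fm i).comp (C ((1 : ℕ) : ℤ) * X + C ((0 : ℕ) : ℤ)) = Fm i := by simp
            rw [e2, natDegree_add_C]
            exact (Fm_deg i).le
          · intro p hp
            obtain ⟨m, hm⟩ := no_fixed k p hp
            refine ⟨m, fun i => ?_⟩
            have e2 : (Fm i).comp (C ((1 : ℕ) : ℤ) * X + C ((0 : ℕ) : ℤ)) = Fm i := by simp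
            rw [e2, eval_add, Fm_eval, eval_C]
            exact hm
        by_contra hno
        push Not at hno
        have hz : ∑ m ∈ Icc 1 y, lp k m = 0 := by
          apply sum_eq_zero
          intro m hm
          have hm1 := mem_Icc.1 hm
          unfold lp
          rw [if_neg]
          exact hno m hm1.1 hm1.2
        rw [hz, zero_sub, abs_neg, abs_of_nonneg (mul_nonneg hy0.le ((by positivity : (0 : ℝ) ≤ 1 / Real.log N).trans hlow))] at hone
        have h4 : (y : ℝ) / Real.log N ^ (A + 2) < y * product z k 1 0 := by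
          calc (y : ℝ) / Real.log N ^ (A + 2) < y * (1 / Real.log N) := by
                rw [mul_one_div]
                apply div_lt_div_of_pos_left hy0 hL0
                calc Real.log N = Real.log N ^ 1 := (pow_one _).symm
                  _ < Real.log N ^ (A + 2) := pow_lt_pow_right₀ (by linarith) (by omega)
            _ ≤ _ := mul_le_mul_of_nonneg_left hlow hy0.le
        linarith
    · apply div_le_div_of_nonneg_left hN0.le (by positivity)
      exact pow_le_pow_right₀ (by linarith) (by omega)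
  · intro u hu
    have key := h0' N hNN0' z hz1b hz2 u hu
    rw [pow_one] at key
    refine le_trans ?_ key
    refine Nat.cast_le.2 ?_
    refine card_le_card_of_injOn (fun k => (fun _ : Fin 1 => k)) ?_ (fun a _ b _ hab => congrFun hab 0)
    intro k hk
    have hn := mem_filter.1 (mem_coe.1 hk)
    rw [mem_coe, mem_filter, Fintype.mem_piFinset]
    refine ⟨fun _ => hn.1, ?_⟩
    by_contra hcon
    push Not at hcon
    apply hn.2
    intro y hy1 hy2 Q hQ w hw
    have h4 := hcon y (hrange y hy1 hy2) Q hQ w hw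
    simp only [prW_eq, lz_eq] at h4
    exact h4

end Pool.Agent.Results.MP_4d57ea_nt.SmallCubesInClasses
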